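import Mathlib

/-! Functions on the natural numbers whose partial sums have bounded discrepancy. -/

namespace Pool.Agent.H96fb
open Finset

/-- partial sums stay within `C` of a linear function of slope at most `C` -/
def Bal (C : ℝ) (f : ℕ → ℝ) : Prop :=
  ∃ φ : ℝ, |φ| ≤ C ∧ ∀ k : ℕ, |∑ p ∈ range k, f p - φ * k| ≤ C

open Classical in
/-- indicator -/
noncomputable def ind (S : Set ℕ) (p : ℕ) : ℝ := if p ∈ S then 1 else 0

theorem ind_of_mem {S : Set ℕ} {p : ℕ} (h : p ∈ S) : ind S p = 1 := if_pos h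
theorem ind_of_not_mem {S : Set ℕ} {p : ℕ} (h : p ∉ S) : ind S p = 0 := if_neg h

theorem ind_nonneg (S : Set ℕ) (p : ℕ) : 0 ≤ ind S p := by
  unfold ind; split_ifs <;> norm_num

theorem ind_abs_le (S : Set ℕ) (p : ℕ) : |ind S p| ≤ 1 := by
  unfold ind; split_ifs <;> norm_num

theorem ind_congr {S : Set ℕ} {p q : ℕ} (h : p ∈ S ↔ q ∈ S) : ind S p = ind S q := by
  by_cases hp : p ∈ S
  · rw [ind_of_mem hp, ind_of_mem (h.1 hp)]
  · rw [ind_of_not_mem hp, ind_of_not_mem (fun hq => hp (h.2 hq))]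

theorem ind_congr' {S T : Set ℕ} {p q : ℕ} (h : p ∈ S ↔ q ∈ T) : ind S p = ind T q := by
  by_cases hp : p ∈ S
  · rw [ind_of_mem hp, ind_of_mem (h.1 hp)]
  · rw [ind_of_not_mem hp, ind_of_not_mem (fun hq => hp (h.2 hq))]

theorem Bal.nonneg {C : ℝ} {f : ℕ → ℝ} (h : Bal C f) : 0 ≤ C := by
  obtain ⟨φ, h1, _⟩ := h
  exact (abs_nonneg _).trans h1

theorem Bal.mono {C C' : ℝ} {f : ℕ → ℝ} (hC : C ≤ C') (h : Bal C f) : Bal C' f := by
  obtain ⟨φ, h1, h2⟩ := h
  exact ⟨φ, h1.trans hC, fun k => (h2 k).trans hC⟩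

theorem Bal.congr {C : ℝ} {f g : ℕ → ℝ} (h : Bal C f) (hfg : ∀ p, g p = f p) : Bal C g := by
  have : g = f := funext hfg
  rw [this]; exact h

theorem bal_zero : Bal 0 (fun _ => 0) := ⟨0, by simp, by intro k; simp⟩

theorem bal_one : Bal 1 (fun _ => 1) := ⟨1, by simp, by intro k; simp⟩

theorem Bal.add {C C' : ℝ} {f g : ℕ → ℝ} (hf : Bal C f) (hg : Bal C' g) :
    Bal (C + C') (fun p => f p + g p) := by
  obtain ⟨φ, h1, h2⟩ := hf
  obtain ⟨ψ, h3, h4⟩ := hg
  refine ⟨φ + ψ, (abs_add_le _ _).trans (add_le_add h1 h3), fun k => ?_⟩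
  rw [sum_add_distrib]
  have : ∑ p ∈ range k, f p + ∑ p ∈ range k, g p - (φ + ψ) * k =
      (∑ p ∈ range k, f p - φ * k) + (∑ p ∈ range k, g p - ψ * k) := by ring
  rw [this]
  exact (abs_add_le _ _).trans (add_le_add (h2 k) (h4 k))

theorem Bal.mul {C : ℝ} {f : ℕ → ℝ} (c : ℝ) (hc : |c| ≤ 1) (hf : Bal C f) :
    Bal C (fun p => c * f p) := by
  have hC := hf.nonneg
  obtain ⟨φ, h1, h2⟩ := hf
  refine ⟨c * φ, ?_, fun k => ?_⟩
  · rw [abs_mul]
    calc |c| * |φ| ≤ 1 * C := mul_le_mul hc h1 (abs_nonneg _) zero_le_one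
      _ = C := one_mul C
  · rw [← mul_sum]
    have : c * ∑ p ∈ range k, f p - c * φ * k = c * (∑ p ∈ range k, f p - φ * k) := by ring
    rw [this, abs_mul]
    calc |c| * |∑ p ∈ range k, f p - φ * k| ≤ 1 * C :=
          mul_le_mul hc (h2 k) (abs_nonneg _) zero_le_one
      _ = C := one_mul C

theorem Bal.sum {ι : Type*} {C : ℝ} (s : Finset ι) (f : ι → ℕ → ℝ)
    (h : ∀ i ∈ s, Bal C (f i)) : Bal (s.card * C) (fun p => ∑ i ∈ s, f i p) := by
  classical
  induction s using Finset.induction_on with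
  | empty => simpa using bal_zero
  | insert a s ha ih =>
    have h1 := h a (mem_insert_self a s)
    have h2 := ih (fun i hi => h i (mem_insert_of_mem hi))
    have h3 := h1.add h2
    refine (h3.mono ?_).congr ?_
    · rw [card_insert_of_notMem ha]; push_cast; linarith
    · intro p; rw [sum_insert ha]

theorem Bal.shift {C : ℝ} {f : ℕ → ℝ} (s : ℕ) (h : Bal C f) :
    Bal (2 * C) (fun p => f (p + s)) := by
  have hC := h.nonneg
  obtain ⟨φ, h1, h2⟩ := h
  refine ⟨φ, by linarith, fun k => ?_⟩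
  have e : ∑ p ∈ range k, f (p + s) = ∑ p ∈ range (k + s), f p - ∑ p ∈ range s, f p := by
    rw [add_comm k s, sum_range_add f s k]
    simp only [add_comm]
    ring
  have a := h2 (k + s)
  have b := h2 s
  have : ∑ p ∈ range k, f (p + s) - φ * k =
      (∑ p ∈ range (k + s), f p - φ * ((k + s : ℕ) : ℝ)) - (∑ p ∈ range s, f p - φ * s) := by
    rw [e]; push_cast; ring
  rw [this]
  refine (abs_sub _ _).trans ?_
  linarith

theorem lift_sum (m a : ℕ) (ha : a < m) (g : ℕ → ℝ) (k : ℕ) :
    ∑ p ∈ range k, (if p % m = a then g (p / m) else 0) =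
      ∑ u ∈ range ((k + (m - 1 - a)) / m), g u := by
  have hm : 0 < m := by omega
  induction k with
  | zero =>
    have : (0 + (m - 1 - a)) / m = 0 := Nat.div_eq_of_lt (by omega)
    rw [this]; simp
  | succ k ih =>
    rw [sum_range_succ, ih]
    have e1 : k + 1 + (m - 1 - a) = (k + (m - 1 - a)) + 1 := by ring
    rw [e1, Nat.succ_div]
    have hk := Nat.div_add_mod k m
    by_cases hka : k % m = a
    · have hd : m ∣ (k + (m - 1 - a)) + 1 := by
        refine ⟨k / m + 1, ?_⟩
        rw [mul_add, mul_one]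
        omega
      have hq : (k + (m - 1 - a)) / m = k / m := by
        have : k + (m - 1 - a) = m * (k / m) + (m - 1) := by omega
        rw [this, Nat.mul_add_div hm, Nat.div_eq_of_lt (show m - 1 < m by omega), add_zero]
      rw [if_pos hka, if_pos hd, sum_range_succ, hq]
    · have hd : ¬ m ∣ (k + (m - 1 - a)) + 1 := by
        intro hd
        apply hka
        have h1 : (k + (m - 1 - a)) + 1 = k + (m - a) := by omega
        rw [h1] at hd
        have h2 : (k % m + (m - a)) % m = 0 := by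
          rw [Nat.mod_add_mod]; exact Nat.mod_eq_zero_of_dvd hd
        have h3 : k % m < m := Nat.mod_lt _ hm
        rcases lt_or_ge (k % m + (m - a)) m with h4 | h4
        · rw [Nat.mod_eq_of_lt h4] at h2; omega
        · rw [Nat.mod_eq_sub_mod h4, Nat.mod_eq_of_lt (by omega)] at h2; omega
      rw [if_neg hka, if_neg hd, add_zero, add_zero]

theorem Bal.lift {C : ℝ} {g : ℕ → ℝ} (m a : ℕ) (ha : a < m) (h : Bal C g) :
    Bal (2 * C) (fun p => if p % m = a then g (p / m) else 0) := by
  have hC := h.nonneg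
  obtain ⟨φ, h1, h2⟩ := h
  have hm : 0 < m := by omega
  have hmr : (1 : ℝ) ≤ m := by exact_mod_cast hm
  refine ⟨φ / m, ?_, fun k => ?_⟩
  · rw [abs_div, abs_of_nonneg (show (0 : ℝ) ≤ m by positivity)]
    have : |φ| / m ≤ |φ| := div_le_self (abs_nonneg _) hmr
    linarith
  · rw [lift_sum m a ha g k]
    set U := (k + (m - 1 - a)) / m with hU
    have hU1 : (U : ℝ) ≤ k / m + 1 := by
      have : U * m ≤ k + (m - 1 - a) := Nat.div_mul_le_self _ _
      have h3 : U * m ≤ k + m := by omega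
      have h4 : (U : ℝ) * m ≤ k + m := by exact_mod_cast h3
      have h5 : (U : ℝ) ≤ (k + m) / m := by rw [le_div_iff₀ (by positivity)]; exact h4
      rw [add_div, div_self (by positivity)] at h5
      exact h5
    have hU2 : (k : ℝ) / m - 1 ≤ U := by
      have h3 : k ≤ U * m + m := by
        have := Nat.lt_div_mul_add hm (a := k + (m - 1 - a))
        rw [← hU] at this
        omega
      have h4 : (k : ℝ) ≤ U * m + m := by exact_mod_cast h3
      have h5 : (k : ℝ) / m ≤ U + 1 := by
        rw [div_le_iff₀ (by positivity)]; linarith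
      linarith
    have h6 := h2 U
    have h7 : ∑ u ∈ range U, g u - φ / m * k =
        (∑ u ∈ range U, g u - φ * U) + φ * (U - k / m) := by
      field_simp
      ring
    rw [h7]
    refine (abs_add_le _ _).trans ?_
    rw [abs_mul]
    have h8 : |(U : ℝ) - k / m| ≤ 1 := by rw [abs_le]; constructor <;> linarith
    have h9 : |φ| * |(U : ℝ) - k / m| ≤ C * 1 :=
      mul_le_mul h1 h8 (abs_nonneg _) hC
    linarith

/-- exactly one element in each block of length `m` -/
theorem bal_spread (m : ℕ) (hm : 0 < m) (S : Set ℕ)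
    (hex : ∀ h, ∃ y, y / m = h ∧ y ∈ S)
    (hun : ∀ y y', y / m = y' / m → y ∈ S → y' ∈ S → y = y') : Bal 1 (ind S) := by
  have hmr : (1 : ℝ) ≤ m := by exact_mod_cast hm
  have key : ∀ h, ∑ p ∈ range (m * h), ind S p = h := by
    intro h
    induction h with
    | zero => simp
    | succ h ih =>
      rw [mul_add, mul_one, sum_range_add, ih]
      obtain ⟨y, hy, hyS⟩ := hex h
      have hy2 := Nat.div_add_mod y m
      rw [hy] at hy2
      have hlt := Nat.mod_lt y hm
      rw [sum_eq_single (y % m)]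
      · rw [hy2, ind_of_mem hyS]; push_cast; ring
      · intro b hb hne
        rw [ind_of_not_mem]
        intro hbS
        apply hne
        have hb' : b < m := mem_range.1 hb
        have h1 : (m * h + b) / m = h := by
          rw [Nat.mul_add_div hm, Nat.div_eq_of_lt hb', add_zero]
        have h2 := hun (m * h + b) y (by rw [h1, hy]) hbS hyS
        rw [← h2, Nat.mul_add_mod, Nat.mod_eq_of_lt hb']
      · intro hn; exact absurd (mem_range.2 hlt) hn
  have mono : ∀ k l, k ≤ l → ∑ p ∈ range k, ind S p ≤ ∑ p ∈ range l, ind S p := by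
    intro k l hkl
    exact sum_le_sum_of_subset_of_nonneg (range_mono hkl) (fun p _ _ => ind_nonneg S p)
  refine ⟨1 / m, ?_, fun k => ?_⟩
  · rw [abs_of_nonneg (by positivity)]
    exact div_le_one_of_le₀ hmr (by positivity)
  · have hk := Nat.div_add_mod k m
    have hlt := Nat.mod_lt k hm
    have h1 := mono (m * (k / m)) k (by omega)
    have h2 := mono k (m * (k / m + 1)) (by rw [mul_add, mul_one]; omega)
    rw [key] at h1 h2
    push_cast at h2
    have h3 : ((k / m : ℕ) : ℝ) ≤ k / m := Nat.cast_div_le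
    have h4 : (k : ℝ) / m ≤ ((k / m : ℕ) : ℝ) + 1 := by
      rw [div_le_iff₀ (by positivity)]
      have h5 : k ≤ (k / m + 1) * m := by rw [add_mul, one_mul, mul_comm]; omega
      exact_mod_cast h5
    have h6 : 1 / (m : ℝ) * k = k / m := by ring
    rw [h6, abs_le]
    constructor <;> linarith

/-- a bounded function of a finite-valued function with balanced level sets -/
theorem Bal.dep {α : Type*} [Fintype α] {C : ℝ} (F : ℕ → α) (f : ℕ → ℝ)
    (hf : ∀ u, |f u| ≤ 1) (hdep : ∀ u u', F u = F u' → f u = f u')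
    (hC : ∀ a, Bal C (ind {u | F u = a})) : Bal (Fintype.card α * C) f := by
  classical
  let Ψ : α → ℝ := fun a => if h : ∃ u, F u = a then f h.choose else 0
  have hΨ : ∀ a, |Ψ a| ≤ 1 := by
    intro a
    by_cases h : ∃ u, F u = a
    · simp only [Ψ, dif_pos h]; exact hf _
    · simp only [Ψ, dif_neg h, abs_zero]; exact zero_le_one
  have hΨF : ∀ u, Ψ (F u) = f u := by
    intro u
    have h : ∃ u', F u' = F u := ⟨u, rfl⟩
    simp only [Ψ, dif_pos h]
    exact hdep _ _ h.choose_spec
  have h1 := Bal.sum (C := C) (Finset.univ : Finset α) (fun a p => Ψ a * ind {u | F u = a} p)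
    (fun a _ => (hC a).mul (Ψ a) (hΨ a))
  rw [Finset.card_univ] at h1
  refine h1.congr ?_
  intro p
  rw [Finset.sum_eq_single (F p)]
  · rw [ind_of_mem (show p ∈ {u | F u = F p} from rfl), mul_one, hΨF]
  · intro b _ hb
    rw [ind_of_not_mem (fun h => hb (Eq.symm h)), mul_zero]
  · intro h; exact absurd (Finset.mem_univ _) h

/-- a function supported on few classes modulo `m`, balanced along each of them -/
theorem Bal.classes {C : ℝ} (m : ℕ) (Y : Finset ℕ) (hY : ∀ q ∈ Y, q < m)
    (f : ℕ → ℝ) (h0 : ∀ y, y % m ∉ Y → f y = 0)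
    (hC : ∀ q ∈ Y, Bal C (fun u => f (q + m * u))) : Bal (Y.card * (2 * C)) f := by
  have h1 := Bal.sum (C := 2 * C) Y
    (fun q p => if p % m = q then f (q + m * (p / m)) else 0)
    (fun q hq => (hC q hq).lift m q (hY q hq))
  refine h1.congr ?_
  intro p
  by_cases hp : p % m ∈ Y
  · rw [Finset.sum_eq_single (p % m)]
    · rw [if_pos rfl, Nat.mod_add_div]
    · intro b _ hb; rw [if_neg (fun h => hb h.symm)]
    · intro h; exact absurd hp h
  · rw [h0 p hp]
    symm
    apply Finset.sum_eq_zero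
    intro q hq
    rw [if_neg]
    intro h
    exact hp (h ▸ hq)

end Pool.Agent.H96fb
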