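import Pool.Agent.H96fb.Net
import Pool.Agent.H96fb.Bal

/-! The level sequences `eps n` and windows inside one row. -/

namespace Pool.Agent.H96fb
open Finset

def Q (n : ℕ) : ℕ := 2 ^ (n + 3)
def M (n : ℕ) : ℕ := 4 * Q n
def R (n : ℕ) : ℕ := n + 7

theorem Q_pos (n : ℕ) : 0 < Q n := by unfold Q; positivity
theorem M_eq (n : ℕ) : M n = 4 * Q n := rfl
theorem M_pos (n : ℕ) : 0 < M n := by have := Q_pos n; unfold M; omega
theorem Q_succ (n : ℕ) : Q (n + 1) = 2 * Q n := by unfold Q; ring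
theorem M_succ (n : ℕ) : M (n + 1) = 8 * Q n := by unfold M; rw [Q_succ]; ring
theorem pow_R (n : ℕ) : 2 ^ R n = 16 * Q n := by unfold R Q; ring
theorem pow_R' (n : ℕ) : 2 ^ R n = 2 * M (n + 1) := by rw [pow_R, M_succ]; ring
theorem M_pow (n : ℕ) : M n = 2 ^ (R n - 2) := by unfold M R Q; rw [show n + 7 - 2 = n + 5 by omega]; ring
theorem R_le (n : ℕ) : R n ≤ Q n := by
  unfold R Q
  induction n with
  | zero => norm_num
  | succ n ih =>
    have : 2 ^ (n + 1 + 3) = 2 * 2 ^ (n + 3) := by ring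
    omega
theorem R_ge (n : ℕ) : 7 ≤ R n := by unfold R; omega

/-- the tent -/
def tau (n t : ℕ) : ℕ := min t (M n - 1 - t)

/-- the place in a row where the next level is recorded -/
def tst (n J : ℕ) : ℕ := Q n + J % (2 * Q n)

theorem tst_ge (n J : ℕ) : Q n ≤ tst n J := Nat.le_add_right _ _
theorem tst_lt (n J : ℕ) : tst n J < 3 * Q n := by
  have := Nat.mod_lt J (show 0 < 2 * Q n by have := Q_pos n; omega)
  unfold tst; omega

/-- the level sequences -/
def eps (n j : ℕ) : Bool :=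
  if h : j % M n = tst n (j / (2 * M n)) then
    xor (P ((j / M n) % 2 ^ R n) (tau n (j % M n))) (eps (n + 1) (j / (2 * M n)))
  else P ((j / M n) % 2 ^ R n) (tau n (j % M n))
termination_by j
decreasing_by
  have h1 := tst_ge n (j / (2 * M n))
  have h2 := Q_pos n
  have h3 := M_pos n
  apply Nat.div_lt_self
  · rcases Nat.eq_zero_or_pos j with h0 | h0
    · rw [h0, Nat.zero_mod] at h
      rw [h0] at h1
      omega
    · exact h0
  · omega

/-- the deterministic part -/
def E (n y t : ℕ) : Bool := P (y % 2 ^ R n) (tau n t)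

theorem eps_eq (n y t : ℕ) (ht : t < M n) :
    eps n (t + M n * y) = xor (E n y t)
      (if t = tst n (y / 2) then eps (n + 1) (y / 2) else false) := by
  have hM := M_pos n
  have h1 : (t + M n * y) % M n = t := by
    rw [Nat.add_mul_mod_self_left, Nat.mod_eq_of_lt ht]
  have h2 : (t + M n * y) / M n = y := by
    rw [Nat.add_mul_div_left _ _ hM, Nat.div_eq_of_lt ht, zero_add]
  have h3 : (t + M n * y) / (2 * M n) = y / 2 := by
    rw [mul_comm 2 (M n), ← Nat.div_div_eq_div_mul, h2]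
  rw [eps, h1, h2, h3]
  by_cases hc : t = tst n (y / 2)
  · rw [dif_pos hc, if_pos hc, E]
  · rw [dif_neg hc, if_neg hc, E, Bool.xor_false]

theorem eps_free (n y t : ℕ) (ht : t < M n) (h : t < Q n ∨ 3 * Q n ≤ t) :
    eps n (t + M n * y) = E n y t := by
  rw [eps_eq n y t ht, if_neg, Bool.xor_false]
  intro hc
  have h1 := tst_ge n (y / 2)
  have h2 := tst_lt n (y / 2)
  omega

theorem tst_add (n J u : ℕ) : tst n (J + M (n + 1) * u) = tst n J := by
  unfold tst
  rw [M_succ, show 8 * Q n * u = 2 * Q n * (4 * u) by ring, Nat.add_mul_mod_self_left]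

theorem E_congr (n y y' t : ℕ) (h : y % 2 ^ R n = y' % 2 ^ R n) : E n y t = E n y' t := by
  unfold E; rw [h]

theorem half_add (n q u : ℕ) : (q + 2 ^ R n * u) / 2 = q / 2 + M (n + 1) * u := by
  rw [pow_R', mul_assoc, Nat.add_mul_div_left _ _ (by norm_num)]

theorem eps_class (n q t u : ℕ) (ht : t < M n) :
    eps n (t + M n * (q + 2 ^ R n * u)) = xor (E n q t)
      (if t = tst n (q / 2) then eps (n + 1) (q / 2 + M (n + 1) * u) else false) := by
  rw [eps_eq n _ t ht, half_add, tst_add]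
  congr 1
  apply E_congr
  rw [Nat.add_mul_mod_self_left]

theorem eps_flip (n T h : ℕ) (hT : T < M n) :
    eps n (T + M n * (2 * h + 1)) = !eps n (T + M n * (2 * h)) := by
  rw [eps_eq n _ T hT, eps_eq n _ T hT]
  have h1 : (2 * h + 1) / 2 = h := by omega
  have h2 : (2 * h) / 2 = h := by omega
  rw [h1, h2]
  have h3 : E n (2 * h + 1) T = !E n (2 * h) T := by
    unfold E
    have e1 : 2 ^ R n = 2 * 2 ^ (R n - 1) := by
      rw [← pow_succ']; congr 1
    have e2 : (2 * h + 1) % 2 ^ R n = 2 * (h % 2 ^ (R n - 1)) + 1 := by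
      rw [e1, Nat.mod_mul, h1]; omega
    have e3 : (2 * h) % 2 ^ R n = 2 * (h % 2 ^ (R n - 1)) := by
      rw [e1, Nat.mul_mod_mul_left]
    rw [e2, e3, P_flip]
  rw [h3]
  cases E n (2 * h) T <;> cases (if T = tst n h then eps (n + 1) h else false) <;> rfl

theorem bal_level1 (n T : ℕ) (b : Bool) (hT : T < M n) :
    Bal 1 (ind {u | eps n (T + M n * u) = b}) := by
  apply bal_spread 2 (by norm_num)
  · intro h
    by_cases hb : eps n (T + M n * (2 * h)) = b
    · exact ⟨2 * h, by omega, hb⟩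
    · refine ⟨2 * h + 1, by omega, ?_⟩
      show eps n (T + M n * (2 * h + 1)) = b
      rw [eps_flip n T h hT]
      cases hx : eps n (T + M n * (2 * h)) <;> cases b <;> simp_all
  · intro y y' h hy hy'
    by_contra hne
    have key : ∀ z z' : ℕ, z' = z + 1 → z % 2 = 0 →
        eps n (T + M n * z) = b → eps n (T + M n * z') = b → False := by
      intro z z' h1 h2 h3 h4
      have e1 : z = 2 * (z / 2) := by omega
      have e2 : z' = 2 * (z / 2) + 1 := by omega
      rw [e2, eps_flip n T _ hT, ← e1, h3] at h4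
      cases b <;> simp at h4
    rcases Nat.mod_two_eq_zero_or_one y with hp | hp <;>
      rcases Nat.mod_two_eq_zero_or_one y' with hp' | hp'
    · omega
    · exact key y y' (by omega) hp hy hy'
    · exact key y' y (by omega) hp' hy' hy
    · omega

/-- image of a window under the tent -/
theorem tau_image (n t₁ k : ℕ) (h : t₁ + k ≤ M n) : ∃ a len,
    (∀ i, i < k → a ≤ tau n (t₁ + i) ∧ tau n (t₁ + i) < a + len) ∧
    (∀ s, a ≤ s → s < a + len → ∃ i, i < k ∧ tau n (t₁ + i) = s) := by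
  have hQ := Q_pos n
  rw [M_eq] at h
  unfold tau
  rw [M_eq]
  rcases Nat.eq_zero_or_pos k with hk | hk
  · exact ⟨0, 0, by intro i hi; omega, by intro s h1 h2; omega⟩
  by_cases c1 : t₁ + k ≤ 2 * Q n
  · refine ⟨t₁, k, ?_, ?_⟩
    · intro i hi; omega
    · intro s h1 h2; exact ⟨s - t₁, by omega, by omega⟩
  by_cases c2 : 2 * Q n ≤ t₁
  · refine ⟨4 * Q n - t₁ - k, k, ?_, ?_⟩
    · intro i hi; omega
    · intro s h1 h2; exact ⟨4 * Q n - 1 - s - t₁, by omega, by omega⟩
  · refine ⟨min t₁ (4 * Q n - t₁ - k), 2 * Q n - min t₁ (4 * Q n - t₁ - k), ?_, ?_⟩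
    · intro i hi; omega
    · intro s h1 h2
      by_cases c3 : t₁ ≤ s
      · exact ⟨s - t₁, by omega, by omega⟩
      · exact ⟨4 * Q n - 1 - s - t₁, by omega, by omega⟩

/-- unperturbed windows -/
def U (n t₁ k : ℕ) (v : ℕ → Bool) : Set ℕ := {y | ∀ i, i < k → E n y (t₁ + i) = v i}

theorem mod_div_pow (y e r : ℕ) (he : e ≤ r) : y % 2 ^ r / 2 ^ e = (y / 2 ^ e) % 2 ^ (r - e) := by
  have : 2 ^ r = 2 ^ e * 2 ^ (r - e) := by rw [← pow_add]; congr 1; omega
  rw [this, Nat.mod_mul_right_div_self]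

theorem div_pow_eq (y y' e r : ℕ) (he : e ≤ r) (h : y / 2 ^ e = y' / 2 ^ e) :
    y / 2 ^ r = y' / 2 ^ r := by
  have : 2 ^ r = 2 ^ e * 2 ^ (r - e) := by rw [← pow_add]; congr 1; omega
  rw [this, ← Nat.div_div_eq_div_mul, ← Nat.div_div_eq_div_mul, h]

theorem bal_U (n t₁ k : ℕ) (v : ℕ → Bool) (h : t₁ + k ≤ M n) : Bal 1 (ind (U n t₁ k v)) := by
  by_cases hne : ∃ y₀, y₀ ∈ U n t₁ k v
  swap
  · refine (bal_zero.mono zero_le_one).congr ?_
    intro p
    exact ind_of_not_mem (fun hp => hne ⟨p, hp⟩)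
  obtain ⟨y₀, hy₀⟩ := hne
  obtain ⟨a, len, him, hsur⟩ := tau_image n t₁ k h
  have heR : min len (R n) ≤ R n := min_le_right _ _
  apply bal_spread (2 ^ (min len (R n))) (by positivity)
  · intro b
    rcases le_or_gt len (R n) with hl | hl
    · rw [min_eq_left hl]
      obtain ⟨z, hz, hzv⟩ := P_surj len a (b % 2 ^ (R n - len))
        (fun i => P (y₀ % 2 ^ R n) (a + i))
      have e0 : 2 ^ R n = 2 ^ len * 2 ^ (R n - len) := by rw [← pow_add]; congr 1; omega
      have hzlt : z < 2 ^ R n := by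
        rw [e0, mul_comm]
        have : z / 2 ^ len < 2 ^ (R n - len) := by rw [hz]; exact Nat.mod_lt _ (by positivity)
        exact (Nat.div_lt_iff_lt_mul (by positivity)).1 this
      refine ⟨z + 2 ^ R n * (b / 2 ^ (R n - len)), ?_, ?_⟩
      · rw [e0, mul_assoc, Nat.add_mul_div_left _ _ (by positivity), hz, Nat.mod_add_div]
      · intro i hi
        obtain ⟨h1, h2⟩ := him i hi
        unfold E
        rw [Nat.add_mul_mod_self_left, Nat.mod_eq_of_lt hzlt]
        have h3 := hzv (tau n (t₁ + i) - a) (by omega)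
        rw [show a + (tau n (t₁ + i) - a) = tau n (t₁ + i) by omega] at h3
        rw [h3]
        exact hy₀ i hi
    · rw [min_eq_right hl.le]
      refine ⟨y₀ % 2 ^ R n + 2 ^ R n * b, ?_, ?_⟩
      · rw [Nat.add_mul_div_left _ _ (by positivity),
          Nat.div_eq_of_lt (Nat.mod_lt _ (by positivity)), zero_add]
      · intro i hi
        have := hy₀ i hi
        rw [← this]
        apply E_congr
        rw [Nat.add_mul_mod_self_left, Nat.mod_mod]
  · intro y y' hd hy hy'
    have h1 : y % 2 ^ R n = y' % 2 ^ R n := by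
      apply P_inj (min len (R n)) a
      · rw [mod_div_pow _ _ _ heR, mod_div_pow _ _ _ heR, hd]
      · intro i hi
        obtain ⟨j, hj, hj2⟩ := hsur (a + i) (by omega) (by
          have := min_le_left len (R n); omega)
        have h2 := hy j hj
        have h3 := hy' j hj
        unfold E at h2 h3
        rw [hj2] at h2 h3
        rw [h2, h3]
    have h2 := div_pow_eq y y' _ _ heR hd
    rw [← Nat.div_add_mod y (2 ^ R n), ← Nat.div_add_mod y' (2 ^ R n), h1, h2]

end Pool.Agent.H96fb
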