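import Mathlib

/-! Digital nets over the field with two elements: `P y t` is the sum over `b` of the `b`-th
binary digit of `y` times the binomial coefficient `t choose b`, modulo two. -/

namespace Pool.Agent.H96fb

/-- `P y t = ∑ b, y_b * (t choose b)` modulo two, given by its difference equation. -/
def P : ℕ → ℕ → Bool
  | y, 0 => decide (y % 2 = 1)
  | y, (t + 1) => xor (P y t) (P (y / 2) t)

theorem P_zero (y : ℕ) : P y 0 = decide (y % 2 = 1) := rfl

theorem P_succ (y t : ℕ) : P y (t + 1) = xor (P y t) (P (y / 2) t) := rfl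

theorem P_flip (h t : ℕ) : P (2 * h + 1) t = !P (2 * h) t := by
  induction t with
  | zero =>
    have h1 : (2 * h + 1) % 2 = 1 := by omega
    have h2 : (2 * h) % 2 = 0 := by omega
    simp [P_zero, h1]
  | succ t ih =>
    have h1 : (2 * h + 1) / 2 = h := by omega
    have h2 : (2 * h) / 2 = h := by omega
    rw [P_succ, P_succ, h1, h2, ih]
    cases P (2 * h) t <;> cases P h t <;> rfl

/-- equal blocks and equal values on `e` consecutive points force equality -/
theorem P_inj (e : ℕ) : ∀ (t₀ y y' : ℕ), y / 2 ^ e = y' / 2 ^ e →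
    (∀ i, i < e → P y (t₀ + i) = P y' (t₀ + i)) → y = y' := by
  induction e with
  | zero =>
    intro t₀ y y' h _
    simpa using h
  | succ e ih =>
    intro t₀ y y' h hv
    have h2 : (y / 2) = (y' / 2) := by
      apply ih t₀ (y / 2) (y' / 2)
      · rw [Nat.div_div_eq_div_mul, Nat.div_div_eq_div_mul, ← pow_succ']
        exact h
      · intro i hi
        have a := hv i (by omega)
        have b := hv (i + 1) (by omega)
        rw [← add_assoc, P_succ, P_succ, a] at b
        exact (Bool.xor_right_inj).1 b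
    by_contra hne
    have h0 := hv 0 (by omega)
    rcases Nat.mod_two_eq_zero_or_one y with hy | hy <;>
      rcases Nat.mod_two_eq_zero_or_one y' with hy' | hy'
    · omega
    · have e1 : y = 2 * (y / 2) := by omega
      have e2 : y' = 2 * (y / 2) + 1 := by omega
      rw [e2, P_flip, ← e1] at h0
      cases hp : P y (t₀ + 0) <;> rw [hp] at h0 <;> simp at h0
    · have e1 : y' = 2 * (y' / 2) := by omega
      have e2 : y = 2 * (y' / 2) + 1 := by omega
      rw [e2, P_flip, ← e1] at h0
      cases hp : P y' (t₀ + 0) <;> rw [hp] at h0 <;> simp at h0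
    · omega

/-- every pattern on `e` consecutive points is attained in every block -/
theorem P_surj (e : ℕ) : ∀ (t₀ h : ℕ) (v : ℕ → Bool), ∃ y, y / 2 ^ e = h ∧
    ∀ i, i < e → P y (t₀ + i) = v i := by
  induction e with
  | zero =>
    intro t₀ h v
    exact ⟨h, by simp, by intro i hi; omega⟩
  | succ e ih =>
    intro t₀ h v
    obtain ⟨m, hm, hv⟩ := ih t₀ h (fun i => xor (v i) (v (i + 1)))
    have key : ∃ y, y / 2 = m ∧ P y t₀ = v 0 := by
      by_cases hc : P (2 * m) t₀ = v 0
      · exact ⟨2 * m, by omega, hc⟩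
      · refine ⟨2 * m + 1, by omega, ?_⟩
        rw [P_flip]
        cases hp : P (2 * m) t₀ <;> cases hq : v 0 <;> rw [hp, hq] at hc <;> simp_all
    obtain ⟨y, hy, hy0⟩ := key
    refine ⟨y, ?_, ?_⟩
    · rw [pow_succ', ← Nat.div_div_eq_div_mul, hy, hm]
    · intro i
      induction i with
      | zero => intro _; exact hy0
      | succ i ih2 =>
        intro hi
        rw [← add_assoc, P_succ, hy, ih2 (by omega), hv i (by omega)]
        cases v i <;> cases v (i + 1) <;> rfl

/-- only the low digits matter at small arguments -/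
theorem P_low (t : ℕ) : ∀ (e y : ℕ), t < e → P (y % 2 ^ e) t = P y t := by
  induction t with
  | zero =>
    intro e y he
    obtain ⟨d, rfl⟩ : ∃ d, e = d + 1 := ⟨e - 1, by omega⟩
    have : y % 2 ^ (d + 1) % 2 = y % 2 := by
      rw [pow_succ']
      exact Nat.mod_mul_right_mod y 2 (2 ^ d)
    rw [P_zero, P_zero, this]
  | succ t ih =>
    intro e y he
    obtain ⟨d, rfl⟩ : ∃ d, e = d + 1 := ⟨e - 1, by omega⟩
    have h2 : y % 2 ^ (d + 1) / 2 = (y / 2) % 2 ^ d := by
      rw [pow_succ']
      exact Nat.mod_mul_right_div_self y 2 (2 ^ d)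
    rw [P_succ, P_succ, ih (d + 1) y (by omega), h2, ih d (y / 2) (by omega)]

/-- equal values on `0,…,e-1` mean congruent modulo `2^e` -/
theorem P_inj0 (e y y' : ℕ) (h : ∀ i, i < e → P y i = P y' i) : y % 2 ^ e = y' % 2 ^ e := by
  apply P_inj e 0
  · rw [Nat.div_eq_of_lt (Nat.mod_lt _ (by positivity)),
      Nat.div_eq_of_lt (Nat.mod_lt _ (by positivity))]
  · intro i hi
    rw [zero_add, P_low i e y hi, P_low i e y' hi]
    exact h i hi

end Pool.Agent.H96fb
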