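import Pool.Agent.H96fb.Word

/-! Occurrences of a word are balanced, with one constant for all words. -/

namespace Pool.Agent.H96fb
open Finset

theorem lt_ell (n : ℕ) : n < ell n := by
  induction n with
  | zero => norm_num [ell]
  | succ n ih => have := ell_mono n; omega

theorem level_exists (m : ℕ) (hm : 1 ≤ m) : ∃ n, ell n ≤ m ∧ m < ell (n + 1) := by
  classical
  have hex : ∃ N, m < ell N := ⟨m, lt_ell m⟩
  obtain ⟨N, hN⟩ : ∃ N, N = Nat.find hex := ⟨_, rfl⟩
  have h1 : m < ell N := hN ▸ Nat.find_spec hex
  have h2 : N ≠ 0 := by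
    intro h0
    rw [h0] at h1
    have : ell 0 = 1 := rfl
    omega
  obtain ⟨n, rfl⟩ := Nat.exists_eq_succ_of_ne_zero h2
  refine ⟨n, ?_, h1⟩
  by_contra hc
  have := Nat.find_min hex (m := n) (by omega)
  omega

/-- occurrences -/
def Oc (m : ℕ) (w : ℕ → Fin (M 0) × Bool) : Set ℕ := {p | ∀ i, i < m → x (p + i) = w i}

theorem occ_bal (m : ℕ) (w : ℕ → Fin (M 0) × Bool) : Bal 13376 (ind (Oc m w)) := by
  classical
  rcases Nat.eq_zero_or_pos m with hm | hm
  · refine (bal_one.mono (by norm_num)).congr ?_
    intro p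
    apply ind_of_mem
    intro i hi; omega
  by_cases hne : ∃ p₀, p₀ ∈ Oc m w
  swap
  · refine (bal_zero.mono (by norm_num)).congr ?_
    intro p
    exact ind_of_not_mem (fun hp => hne ⟨p, hp⟩)
  obtain ⟨p₀, hp₀⟩ := hne
  obtain ⟨n, hn1, hn2⟩ := level_exists m hm
  have hl := ell_pos n
  have hM := M_pos n
  obtain ⟨r, hr⟩ : ∃ r, r = p₀ % (ell n * M n) := ⟨_, rfl⟩
  have hlM : 0 < ell n * M n := Nat.mul_pos hl hM
  have hrlt : r < ell n * M n := by rw [hr]; exact Nat.mod_lt _ hlM
  have hclass : ∀ p, p ∈ Oc m w → p % (ell n * M n) = r := by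
    intro p hp
    rw [hr]
    apply recog n
    intro i hi
    rw [hp i (by omega), hp₀ i (by omega)]
  obtain ⟨ρ, hρ⟩ : ∃ ρ, ρ = r % ell n := ⟨_, rfl⟩
  obtain ⟨t₁, ht₁⟩ : ∃ t, t = r / ell n := ⟨_, rfl⟩
  have hρlt : ρ < ell n := by rw [hρ]; exact Nat.mod_lt _ hl
  have ht₁lt : t₁ < M n := by
    rw [ht₁, Nat.div_lt_iff_lt_mul hl, mul_comm]; exact hrlt
  have hpos : ∀ y, r + ell n * M n * y = ρ + ell n * (t₁ + M n * y) := by
    intro y
    rw [hρ, ht₁]
    conv_lhs => rw [← Nat.mod_add_div r (ell n)]
    ring
  obtain ⟨k, hk⟩ : ∃ k, k = (ρ + m - 1) / ell n + 1 := ⟨_, rfl⟩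
  have hk1 : 1 ≤ k := by rw [hk]; exact Nat.le_add_left 1 _
  have hk2 : k ≤ 2 * M n + 1 := by
    have : (ρ + m - 1) / ell n < 2 * M n + 1 := by
      rw [Nat.div_lt_iff_lt_mul hl, add_mul, one_mul, mul_comm (2 * M n), ← ell_succ]
      omega
    omega
  have hk3 : ell n * (k - 1) ≤ ρ + m - 1 := by
    rw [hk, Nat.add_sub_cancel]; exact Nat.mul_div_le _ _
  let pat : ℕ → (Fin k → Bool) := fun y i => eps n (t₁ + i.val + M n * y)
  have hsame : ∀ y y', pat y = pat y' → ∀ i, i < m →
      x (r + ell n * M n * y + i) = x (r + ell n * M n * y' + i) := by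
    intro y y' hpat i hi
    have hc : (ρ + i) / ell n < k := by
      have : (ρ + i) / ell n ≤ (ρ + m - 1) / ell n := Nat.div_le_div_right (by omega)
      omega
    have e1 : ∀ z, r + ell n * M n * z + i =
        (ρ + i) % ell n + ell n * (t₁ + (ρ + i) / ell n + M n * z) := by
      intro z
      rw [hpos z]
      have a := Nat.mod_add_div (ρ + i) (ell n)
      calc ρ + ell n * (t₁ + M n * z) + i = (ρ + i) + ell n * (t₁ + M n * z) := by ring
        _ = ((ρ + i) % ell n + ell n * ((ρ + i) / ell n)) + ell n * (t₁ + M n * z) := by rw [a]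
        _ = _ := by ring
    rw [e1, e1]
    apply block_same n _ _ _ (Nat.mod_lt _ hl)
    · rw [Nat.add_mul_mod_self_left, Nat.add_mul_mod_self_left]
    · exact congrFun hpat ⟨(ρ + i) / ell n, hc⟩
  let V : Finset (Fin k → Bool) :=
    Finset.univ.filter (fun v => ∃ y, r + ell n * M n * y ∈ Oc m w ∧ pat y = v)
  have hVmem : ∀ v, v ∈ V ↔ ∃ y, r + ell n * M n * y ∈ Oc m w ∧ pat y = v := by
    intro v
    simp only [V, Finset.mem_filter, Finset.mem_univ, true_and]
  have hVcard : V.card ≤ 4 := by
    have h4 : (Finset.univ : Finset (Bool × Bool)).card = 4 := by rfl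
    rw [← h4]
    apply Finset.card_le_card_of_injOn (fun v => (v ⟨0, by omega⟩, v ⟨k - 1, by omega⟩))
    · intro v _; exact Finset.mem_coe.2 (Finset.mem_univ _)
    · intro v hv v' hv' heq
      obtain ⟨y, hy, rfl⟩ := (hVmem v).1 (Finset.mem_coe.1 hv)
      obtain ⟨y', hy', rfl⟩ := (hVmem v').1 (Finset.mem_coe.1 hv')
      simp only [Prod.mk.injEq] at heq
      obtain ⟨g1, g2⟩ := heq
      funext c
      rcases Nat.eq_zero_or_pos c.val with h0 | h0
      · have : c = ⟨0, by omega⟩ := Fin.ext h0
        rw [this]; exact g1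
      rcases Nat.lt_or_ge c.val (k - 1) with h1 | h1
      · show eps n (t₁ + c.val + M n * y) = eps n (t₁ + c.val + M n * y')
        apply block_diff n
        · rw [Nat.add_mul_mod_self_left, Nat.add_mul_mod_self_left]
        · intro s hs
          have hc3 : ell n ≤ ell n * c.val := Nat.le_mul_of_pos_right _ h0
          have hc4 : ell n * c.val + ell n ≤ ell n * (k - 1) := by
            rw [← Nat.mul_succ]; exact Nat.mul_le_mul_left _ (by omega)
          have e1 : ∀ z, s + ell n * (t₁ + c.val + M n * z) =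
              r + ell n * M n * z + (s + ell n * c.val - ρ) := by
            intro z
            rw [hpos z, show ell n * (t₁ + c.val + M n * z) =
              ell n * (t₁ + M n * z) + ell n * c.val by ring]
            omega
          rw [e1, e1, hy _ (by omega), hy' _ (by omega)]
      · have : c = ⟨k - 1, by omega⟩ := Fin.ext (by have := c.isLt; simp only; omega)
        rw [this]; exact g2
  have hlevel : Bal 6688 (fun y => ind (Oc m w) (r + ell n * M n * y)) := by
    have hs := Bal.sum (C := 1672) V (fun v y => ind {y | pat y = v} y) (by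
      intro v _
      have hset : {y | pat y = v} =
          W n t₁ k (fun i => if h : i < k then v ⟨i, h⟩ else false) := by
        ext y
        constructor
        · intro hy i hi
          have hy' : pat y = v := hy
          simp only [dif_pos hi]
          rw [← hy']
        · intro hy
          show pat y = v
          funext i
          have := hy i.val i.isLt
          simp only [dif_pos i.isLt] at this
          exact this
      rw [hset]
      exact window_all n t₁ k _ ht₁lt hk2)
    refine (hs.mono ?_).congr ?_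
    · have : (V.card : ℝ) ≤ 4 := by exact_mod_cast hVcard
      linarith
    · intro y
      by_cases hy : r + ell n * M n * y ∈ Oc m w
      · rw [ind_of_mem hy, Finset.sum_eq_single (pat y)]
        · exact (ind_of_mem (show y ∈ {z | pat z = pat y} from rfl)).symm
        · intro b _ hb
          exact ind_of_not_mem (fun h => hb (Eq.symm h))
        · intro h
          exact absurd ((hVmem _).2 ⟨y, hy, rfl⟩) h
      · rw [ind_of_not_mem hy]
        symm
        apply Finset.sum_eq_zero
        intro v hv
        apply ind_of_not_mem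
        intro hyv
        obtain ⟨y', hy', hpat⟩ := (hVmem v).1 hv
        apply hy
        intro i hi
        rw [hsame y y' (by rw [hpat]; exact hyv) i hi]
        exact hy' i hi
  have hfin := Bal.classes (C := 6688) (ell n * M n) {r}
    (by intro q hq; rw [Finset.mem_singleton.1 hq]; exact hrlt) (ind (Oc m w)) ?_ ?_
  · refine hfin.mono ?_
    rw [Finset.card_singleton]; norm_num
  · intro p hp
    apply ind_of_not_mem
    intro hpO
    exact hp (Finset.mem_singleton.2 (hclass p hpO))
  · intro q hq
    rw [Finset.mem_singleton.1 hq]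
    exact hlevel

end Pool.Agent.H96fb
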