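import Pool.Agent.H96fb.Single

/-! Windows crossing rows. -/

namespace Pool.Agent.H96fb
open Finset

theorem P_cong (e r y y' s : ℕ) (he : e ≤ r) (hs : s < e) (h : y % 2 ^ e = y' % 2 ^ e) :
    P (y % 2 ^ r) s = P (y' % 2 ^ r) s := by
  rw [← P_low s e (y % 2 ^ r) hs, ← P_low s e (y' % 2 ^ r) hs,
    Nat.mod_mod_of_dvd _ (pow_dvd_pow 2 he), Nat.mod_mod_of_dvd _ (pow_dvd_pow 2 he), h]

theorem P_uncong (e r y y' : ℕ) (he : e ≤ r)
    (h : ∀ s, s < e → P (y % 2 ^ r) s = P (y' % 2 ^ r) s) : y % 2 ^ e = y' % 2 ^ e := by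
  have := P_inj0 e _ _ h
  rwa [Nat.mod_mod_of_dvd _ (pow_dvd_pow 2 he), Nat.mod_mod_of_dvd _ (pow_dvd_pow 2 he)] at this

theorem mod_succ_cong (m y y' : ℕ) : (y + 1) % m = (y' + 1) % m ↔ y % m = y' % m := by
  constructor
  · intro h; exact Nat.ModEq.add_right_cancel' 1 h
  · intro h; exact Nat.ModEq.add_right 1 h

theorem eps_start (n y s : ℕ) (hs : s < R n) :
    eps n (s + M n * y) = P (y % 2 ^ R n) s := by
  have hQ := Q_pos n
  have hR := R_le n
  rw [eps_free n y s (by rw [M_eq]; omega) (Or.inl (by omega))]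
  unfold E tau
  rw [M_eq, min_eq_left (by omega)]

theorem eps_stop (n y s : ℕ) (hs : s < R n) :
    eps n (M n - 1 - s + M n * y) = P (y % 2 ^ R n) s := by
  have hQ := Q_pos n
  have hR := R_le n
  rw [eps_free n y _ (by rw [M_eq]; omega) (Or.inr (by rw [M_eq]; omega))]
  unfold E tau
  rw [M_eq, min_eq_right (by omega)]
  congr 1
  omega

theorem wrap_small (n t₁ k : ℕ) (v : ℕ → Bool) (h1 : t₁ < M n) (h2 : M n < t₁ + k)
    (h3 : M n - t₁ ≤ R n) (h4 : t₁ + k - M n ≤ R n) : Bal 2 (ind (W n t₁ k v)) := by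
  have hQ := Q_pos n
  have hR := R_le n
  have hM := M_eq n
  by_cases hne : ∃ y₀, y₀ ∈ W n t₁ k v
  swap
  · refine (bal_zero.mono (by norm_num)).congr ?_
    intro p
    exact ind_of_not_mem (fun hp => hne ⟨p, hp⟩)
  obtain ⟨y₀, hy₀⟩ := hne
  obtain ⟨e, he⟩ : ∃ e, e = max (M n - t₁) (t₁ + k - M n) := ⟨_, rfl⟩
  have heR : e ≤ R n := by rw [he]; exact max_le h3 h4
  have he1 : M n - t₁ ≤ e := by rw [he]; exact le_max_left _ _
  have he2 : t₁ + k - M n ≤ e := by rw [he]; exact le_max_right _ _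
  have hleft : ∀ y i, i < M n - t₁ →
      eps n (t₁ + i + M n * y) = P (y % 2 ^ R n) (M n - 1 - t₁ - i) := by
    intro y i hi
    rw [← eps_stop n y (M n - 1 - t₁ - i) (by omega)]
    congr 2
    omega
  have hright : ∀ y i, M n - t₁ ≤ i → i < k →
      eps n (t₁ + i + M n * y) = P ((y + 1) % 2 ^ R n) (t₁ + i - M n) := by
    intro y i hi hi2
    rw [← eps_start n (y + 1) (t₁ + i - M n) (by omega), mul_add, mul_one]
    congr 1
    omega
  have key : ∀ y, y ∈ W n t₁ k v ↔ y % 2 ^ e = y₀ % 2 ^ e := by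
    intro y
    constructor
    · intro hy
      rcases le_total (t₁ + k - M n) (M n - t₁) with hc | hc
      · have hee : e = M n - t₁ := by rw [he, max_eq_left hc]
        apply P_uncong e (R n) y y₀ heR
        intro s hs
        have a := hy (M n - 1 - t₁ - s) (by omega)
        have b := hy₀ (M n - 1 - t₁ - s) (by omega)
        rw [hleft _ _ (by omega)] at a b
        rw [show M n - 1 - t₁ - (M n - 1 - t₁ - s) = s by omega] at a b
        rw [a, b]
      · have hee : e = t₁ + k - M n := by rw [he, max_eq_right hc]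
        rw [← mod_succ_cong]
        apply P_uncong e (R n) (y + 1) (y₀ + 1) heR
        intro s hs
        have a := hy (M n - t₁ + s) (by omega)
        have b := hy₀ (M n - t₁ + s) (by omega)
        rw [hright _ _ (by omega) (by omega)] at a b
        rw [show t₁ + (M n - t₁ + s) - M n = s by omega] at a b
        rw [a, b]
    · intro hy i hi
      rw [← hy₀ i hi]
      rcases lt_or_ge i (M n - t₁) with hc | hc
      · rw [hleft _ _ hc, hleft _ _ hc]
        exact P_cong e (R n) y y₀ _ heR (by omega) hy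
      · rw [hright _ _ hc hi, hright _ _ hc hi]
        exact P_cong e (R n) (y + 1) (y₀ + 1) _ heR (by omega) ((mod_succ_cong _ _ _).2 hy)
  have hb := bal_one.lift (2 ^ e) (y₀ % 2 ^ e) (Nat.mod_lt _ (by positivity))
  refine (hb.mono (by norm_num)).congr ?_
  intro p
  by_cases hp : p % 2 ^ e = y₀ % 2 ^ e
  · rw [if_pos hp, ind_of_mem ((key p).2 hp)]
  · rw [if_neg hp, ind_of_not_mem (fun hc => hp ((key p).1 hc))]

theorem bal_pair (n T : ℕ) (a b : Bool) (hT : T < M n) :
    Bal 209 (ind {u | (eps n (T + M n * u), eps n (T + 1 + M n * u)) = (a, b)}) := by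
  have hQ := Q_pos n
  have hM := M_eq n
  have hR := R_ge n
  have hset : {u | (eps n (T + M n * u), eps n (T + 1 + M n * u)) = (a, b)} =
      W n T 2 (fun i => if i = 0 then a else b) := by
    ext u
    simp only [Set.mem_ofPred_eq, W, Prod.mk.injEq]
    constructor
    · rintro ⟨h1, h2⟩ i hi
      rcases (show i = 0 ∨ i = 1 by omega) with rfl | rfl
      · simpa using h1
      · simpa using h2
    · intro h
      have h1 := h 0 (by norm_num)
      have h2 := h 1 (by norm_num)
      simp only [add_zero, if_true] at h1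
      rw [if_neg (by norm_num)] at h2
      exact ⟨h1, h2⟩
  rw [hset]
  rcases lt_or_ge (T + 1) (M n) with hc | hc
  · exact window_single n T 2 _ (by omega)
  · exact (wrap_small n T 2 _ hT (by omega) (by omega) (by omega)).mono (by norm_num)

theorem window_long (n t₁ k : ℕ) (v : ℕ → Bool) (h1 : t₁ < M n) (h2 : M n < t₁ + k)
    (hk : k ≤ 2 * M n + 1)
    (h3 : R n ≤ M n - t₁ ∨ R n ≤ t₁ + k - M n) : Bal 1672 (ind (W n t₁ k v)) := by
  have hQ := Q_pos n
  have hR := R_le n
  have hM := M_eq n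
  have huniq : ∀ y y', y ∈ W n t₁ k v → y' ∈ W n t₁ k v → y % 2 ^ R n = y' % 2 ^ R n := by
    intro y y' hy hy'
    rcases h3 with h3 | h3
    · apply P_uncong (R n) (R n) y y' (le_refl _)
      intro s hs
      have a := hy (M n - 1 - s - t₁) (by omega)
      have b := hy' (M n - 1 - s - t₁) (by omega)
      rw [show t₁ + (M n - 1 - s - t₁) = M n - 1 - s by omega, eps_stop n _ s hs] at a b
      rw [a, b]
    · rw [← mod_succ_cong]
      apply P_uncong (R n) (R n) (y + 1) (y' + 1) (le_refl _)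
      intro s hs
      have a := hy (M n - t₁ + s) (by omega)
      have b := hy' (M n - t₁ + s) (by omega)
      have e1 : ∀ z, t₁ + (M n - t₁ + s) + M n * z = s + M n * (z + 1) := by
        intro z; rw [mul_add, mul_one]; omega
      rw [e1, eps_start n _ s hs] at a b
      rw [a, b]
  by_cases hne : ∃ y₀, y₀ ∈ W n t₁ k v
  swap
  · refine (bal_zero.mono (by norm_num)).congr ?_
    intro p
    exact ind_of_not_mem (fun hp => hne ⟨p, hp⟩)
  obtain ⟨y₀, hy₀⟩ := hne
  obtain ⟨q, hq⟩ : ∃ q, q = y₀ % 2 ^ R n := ⟨_, rfl⟩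
  have hqlt : q < 2 ^ R n := by rw [hq]; exact Nat.mod_lt _ (by positivity)
  have hb := Bal.classes (C := 836) (2 ^ R n) {q} (by intro x hx; rw [mem_singleton.1 hx]; exact hqlt)
    (ind (W n t₁ k v)) ?_ ?_
  · refine hb.mono ?_
    rw [card_singleton]; norm_num
  · intro y hy
    apply ind_of_not_mem
    intro hyW
    apply hy
    rw [mem_singleton, hq]
    exact huniq _ _ hyW hy₀
  · intro x hx
    rw [mem_singleton.1 hx]
    have hqM : q / 2 < M (n + 1) := by
      rw [pow_R'] at hqlt; omega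
    have hd := Bal.dep (C := 209) (fun u => (eps (n + 1) (q / 2 + M (n + 1) * u),
      eps (n + 1) (q / 2 + 1 + M (n + 1) * u))) (fun u => ind (W n t₁ k v) (q + 2 ^ R n * u))
      (fun u => ind_abs_le _ _) ?_ ?_
    · refine hd.mono ?_
      rw [Fintype.card_prod, Fintype.card_bool]; norm_num
    · intro u u' huu
      simp only [Prod.mk.injEq] at huu
      obtain ⟨g1, g2⟩ := huu
      have key : ∀ i, i < k → eps n (t₁ + i + M n * (q + 2 ^ R n * u)) =
          eps n (t₁ + i + M n * (q + 2 ^ R n * u')) := by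
        intro i hi
        have hrho : (t₁ + i) / M n < 3 := by
          rw [Nat.div_lt_iff_lt_mul (M_pos n)]; omega
        have e1 : ∀ z, t₁ + i + M n * (q + 2 ^ R n * z) =
            (t₁ + i) % M n + M n * ((q + (t₁ + i) / M n) + 2 ^ R n * z) := by
          intro z
          conv_lhs => rw [← Nat.mod_add_div (t₁ + i) (M n)]
          ring
        rw [e1, e1, eps_class n _ _ u (Nat.mod_lt _ (M_pos n)),
          eps_class n _ _ u' (Nat.mod_lt _ (M_pos n))]
        have hval : ∀ r, r < 3 → (q + r) / 2 = q / 2 ∨ (q + r) / 2 = q / 2 + 1 := by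
          intro r hr
          omega
        rcases hval _ hrho with hv | hv
        · rw [hv, g1]
        · rw [hv, g2]
      apply ind_congr'
      constructor
      · intro hw i hi; rw [← key i hi]; exact hw i hi
      · intro hw i hi; rw [key i hi]; exact hw i hi
    · rintro ⟨a, b⟩
      exact bal_pair (n + 1) (q / 2) a b hqM

theorem window_all (n t₁ k : ℕ) (v : ℕ → Bool) (h1 : t₁ < M n) (hk : k ≤ 2 * M n + 1) :
    Bal 1672 (ind (W n t₁ k v)) := by
  rcases le_or_gt (t₁ + k) (M n) with h2 | h2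
  · exact (window_single n t₁ k v h2).mono (by norm_num)
  · by_cases h3 : R n ≤ M n - t₁ ∨ R n ≤ t₁ + k - M n
    · exact window_long n t₁ k v h1 h2 hk h3
    · push Not at h3
      exact (wrap_small n t₁ k v h1 h2 h3.1.le h3.2.le).mono (by norm_num)

end Pool.Agent.H96fb
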