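import Pool.Agent.H96fb.Eps

/-! Windows inside one row. -/

namespace Pool.Agent.H96fb
open Finset

theorem ham_aux (n e s q q' T T' : ℕ) (hs : s + e ≤ M n)
    (hside : s + e ≤ 2 * Q n ∨ 2 * Q n ≤ s)
    (hq : q < 2 ^ R n) (hq' : q' < 2 ^ R n) (hd : q / 2 ^ e = q' / 2 ^ e)
    (hE : ∀ t, s ≤ t → t < s + e → t ≠ T → t ≠ T' → E n q t = E n q' t)
    (hT : ¬ (s ≤ T ∧ T < s + e)) (hT' : ¬ (s ≤ T' ∧ T' < s + e)) : q = q' := by
  have hQ := Q_pos n
  rw [M_eq] at hs
  rcases hside with h1 | h1
  · apply P_inj e s q q' hd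
    intro i hi
    have h2 := hE (s + i) (by omega) (by omega) (by omega) (by omega)
    unfold E at h2
    rw [Nat.mod_eq_of_lt hq, Nat.mod_eq_of_lt hq'] at h2
    have h3 : tau n (s + i) = s + i := by unfold tau; rw [M_eq]; omega
    rwa [h3] at h2
  · apply P_inj e (4 * Q n - s - e) q q' hd
    intro i hi
    have h2 := hE (s + e - 1 - i) (by omega) (by omega) (by omega) (by omega)
    unfold E at h2
    rw [Nat.mod_eq_of_lt hq, Nat.mod_eq_of_lt hq'] at h2
    have h3 : tau n (s + e - 1 - i) = 4 * Q n - s - e + i := by unfold tau; rw [M_eq]; omega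
    rwa [h3] at h2

theorem ham (n t₁ k e q q' T T' : ℕ) (h : t₁ + k ≤ M n) (hk : 6 * e ≤ k)
    (hq : q < 2 ^ R n) (hq' : q' < 2 ^ R n) (hd : q / 2 ^ e = q' / 2 ^ e)
    (hE : ∀ t, t₁ ≤ t → t < t₁ + k → t ≠ T → t ≠ T' → E n q t = E n q' t) : q = q' := by
  have hb : ∃ b, t₁ ≤ b ∧ b + 3 * e ≤ t₁ + k ∧ (b + 3 * e ≤ 2 * Q n ∨ 2 * Q n ≤ b) := by
    by_cases c : t₁ + 3 * e ≤ 2 * Q n
    · exact ⟨t₁, le_refl _, by omega, Or.inl c⟩
    · exact ⟨t₁ + 3 * e, by omega, by omega, Or.inr (by omega)⟩
  obtain ⟨b, hb1, hb2, hb3⟩ := hb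
  have h3 : (¬ (b ≤ T ∧ T < b + e) ∧ ¬ (b ≤ T' ∧ T' < b + e)) ∨
      (¬ (b + e ≤ T ∧ T < b + e + e) ∧ ¬ (b + e ≤ T' ∧ T' < b + e + e)) ∨
      (¬ (b + e + e ≤ T ∧ T < b + e + e + e) ∧ ¬ (b + e + e ≤ T' ∧ T' < b + e + e + e)) := by
    omega
  rcases h3 with ⟨c1, c2⟩ | ⟨c1, c2⟩ | ⟨c1, c2⟩
  · exact ham_aux n e b q q' T T' (by omega) (by omega) hq hq' hd
      (fun t h1 h2 => hE t (by omega) (by omega)) c1 c2
  · exact ham_aux n e (b + e) q q' T T' (by omega) (by omega) hq hq' hd
      (fun t h1 h2 => hE t (by omega) (by omega)) c1 c2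
  · exact ham_aux n e (b + e + e) q q' T T' (by omega) (by omega) hq hq' hd
      (fun t h1 h2 => hE t (by omega) (by omega)) c1 c2

open Classical in
/-- classes with a visible recording place that may match -/
noncomputable def Yset (n t₁ k : ℕ) (v : ℕ → Bool) : Finset ℕ :=
  (range (2 ^ R n)).filter (fun q => t₁ ≤ tst n (q / 2) ∧ tst n (q / 2) < t₁ + k ∧
    ∀ i, i < k → t₁ + i ≠ tst n (q / 2) → E n q (t₁ + i) = v i)

theorem mem_Yset {n t₁ k : ℕ} {v : ℕ → Bool} {q : ℕ} : q ∈ Yset n t₁ k v ↔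
    q < 2 ^ R n ∧ t₁ ≤ tst n (q / 2) ∧ tst n (q / 2) < t₁ + k ∧
    ∀ i, i < k → t₁ + i ≠ tst n (q / 2) → E n q (t₁ + i) = v i := by
  unfold Yset
  rw [mem_filter, mem_range]

theorem card_Yset (n t₁ k : ℕ) (v : ℕ → Bool) (h : t₁ + k ≤ M n) :
    (Yset n t₁ k v).card ≤ 52 := by
  have hQ := Q_pos n
  obtain ⟨e, he⟩ : ∃ e, e = min (k / 6) (R n - 2) := ⟨_, rfl⟩
  have he1 : 6 * e ≤ k := by
    have := min_le_left (k / 6) (R n - 2); omega
  have he2 : e ≤ R n - 2 := by rw [he]; exact min_le_right _ _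
  have hMe : M n = 2 ^ e * 2 ^ (R n - 2 - e) := by
    rw [M_pow, ← pow_add]; congr 1; omega
  have h2k : 2 * k ≤ 12 * 2 ^ e := by
    rcases le_total (k / 6) (R n - 2) with hc | hc
    · rw [min_eq_left hc] at he
      have : e < 2 ^ e := Nat.lt_two_pow_self
      omega
    · rw [min_eq_right hc] at he
      have : 2 ^ e = M n := by rw [he, M_pow]
      omega
  obtain ⟨A, hA⟩ : ∃ A, A = 2 * t₁ - 2 * Q n := ⟨_, rfl⟩
  have hcard : ((range 4) ×ˢ (Icc (A / 2 ^ e) (A / 2 ^ e + 12))).card = 52 := by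
    rw [card_product, card_range, Nat.card_Icc]; omega
  rw [← hcard]
  apply card_le_card_of_injOn (fun q => (q / M n, (q % M n) / 2 ^ e))
  · intro q hq
    have hq' := mem_Yset.1 (mem_coe.1 hq)
    obtain ⟨h1, h2, h3, _⟩ := hq'
    rw [coe_product, Set.mem_prod]
    have hmod : q % M n = q % 2 + 2 * ((q / 2) % (2 * Q n)) := by
      rw [M_eq, show 4 * Q n = 2 * (2 * Q n) by ring, Nat.mod_mul]
    unfold tst at h2 h3
    have hlow : A ≤ q % M n := by rw [hmod]; omega
    have hup : q % M n < A + 12 * 2 ^ e := by rw [hmod]; omega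
    constructor
    · simp only [coe_range, Set.mem_Iio]
      rw [Nat.div_lt_iff_lt_mul (M_pos n)]
      rw [pow_R] at h1
      rw [M_eq]; omega
    · simp only [coe_Icc, Set.mem_Icc]
      refine ⟨Nat.div_le_div_right hlow, ?_⟩
      have hpos : 0 < 2 ^ e := by positivity
      have hA2 := Nat.lt_div_mul_add hpos (a := A)
      have : q % M n / 2 ^ e < A / 2 ^ e + 13 := by
        rw [Nat.div_lt_iff_lt_mul hpos, add_mul]
        omega
      omega
  · intro q hq q' hq' heq
    obtain ⟨h1, h2, h3, h4⟩ := mem_Yset.1 (mem_coe.1 hq)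
    obtain ⟨h1', h2', h3', h4'⟩ := mem_Yset.1 (mem_coe.1 hq')
    simp only [Prod.mk.injEq] at heq
    obtain ⟨g1, g2⟩ := heq
    have key : ∀ x, x / 2 ^ e = 2 ^ (R n - 2 - e) * (x / M n) + (x % M n) / 2 ^ e := by
      intro x
      conv_lhs => rw [← Nat.div_add_mod x (M n)]
      nth_rewrite 1 [hMe]
      rw [mul_assoc, Nat.mul_add_div (by positivity)]
    apply ham n t₁ k e q q' (tst n (q / 2)) (tst n (q' / 2)) h he1 h1 h1'
    · rw [key q, key q', g1, g2]
    · intro t ht1 ht2 ht3 ht4
      have e1 := h4 (t - t₁) (by omega) (by rwa [show t₁ + (t - t₁) = t by omega])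
      have e2 := h4' (t - t₁) (by omega) (by rwa [show t₁ + (t - t₁) = t by omega])
      rw [show t₁ + (t - t₁) = t by omega] at e1 e2
      rw [e1, e2]

/-- windows -/
def W (n t₁ k : ℕ) (v : ℕ → Bool) : Set ℕ := {y | ∀ i, i < k → eps n (t₁ + i + M n * y) = v i}

theorem window_single (n t₁ k : ℕ) (v : ℕ → Bool) (h : t₁ + k ≤ M n) :
    Bal 209 (ind (W n t₁ k v)) := by
  have hU := bal_U n t₁ k v h
  have hd : Bal ((Yset n t₁ k v).card * (2 * 2))
      (fun y => ind (W n t₁ k v) y + (-1) * ind (U n t₁ k v) y) := by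
    apply Bal.classes (C := 2) (2 ^ R n) (Yset n t₁ k v) (fun q hq => (mem_Yset.1 hq).1)
    · intro y hy
      have hWU : y ∈ W n t₁ k v ↔ y ∈ U n t₁ k v := by
        obtain ⟨q, hq⟩ : ∃ q, q = y % 2 ^ R n := ⟨_, rfl⟩
        have hyq : y = q + 2 ^ R n * (y / 2 ^ R n) := by rw [hq, Nat.mod_add_div]
        have hqlt : q < 2 ^ R n := by rw [hq]; exact Nat.mod_lt _ (by positivity)
        have hEq : ∀ t, E n y t = E n q t := by
          intro t; apply E_congr; rw [hq, Nat.mod_mod]
        have heps : ∀ t, t < M n → eps n (t + M n * y) = xor (E n q t)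
            (if t = tst n (q / 2) then eps (n + 1) (q / 2 + M (n + 1) * (y / 2 ^ R n))
              else false) := by
          intro t ht
          conv_lhs => rw [hyq]
          exact eps_class n q t _ ht
        rw [← hq, mem_Yset] at hy
        by_cases hc : t₁ ≤ tst n (q / 2) ∧ tst n (q / 2) < t₁ + k
        · have hbad : ∃ i, i < k ∧ t₁ + i ≠ tst n (q / 2) ∧ E n q (t₁ + i) ≠ v i := by
            by_contra hcon
            push Not at hcon
            exact hy ⟨hqlt, hc.1, hc.2, fun i h1 h2 => hcon i h1 h2⟩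
          obtain ⟨i, hi, hi2, hi3⟩ := hbad
          constructor
          · intro hw
            have := hw i hi
            rw [heps _ (by omega), if_neg hi2, Bool.xor_false] at this
            exact absurd this hi3
          · intro hu
            have := hu i hi
            rw [hEq] at this
            exact absurd this hi3
        · constructor
          · intro hw i hi
            have := hw i hi
            rw [heps _ (by omega), if_neg (by omega), Bool.xor_false] at this
            rw [hEq, this]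
          · intro hu i hi
            have := hu i hi
            rw [heps _ (by omega), if_neg (by omega), Bool.xor_false, ← hEq, this]
      rw [ind_congr' hWU]; ring
    · intro q hq
      have hqlt := (mem_Yset.1 hq).1
      have hb := Bal.dep (C := 1) (fun u => eps (n + 1) (q / 2 + M (n + 1) * u))
        (fun u => ind (W n t₁ k v) (q + 2 ^ R n * u) + (-1) * ind (U n t₁ k v) (q + 2 ^ R n * u))
        ?_ ?_ ?_
      · rw [Fintype.card_bool] at hb
        refine hb.mono ?_
        norm_num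
      · intro u
        have a1 := ind_nonneg (W n t₁ k v) (q + 2 ^ R n * u)
        have a2 := ind_abs_le (W n t₁ k v) (q + 2 ^ R n * u)
        have a3 := ind_nonneg (U n t₁ k v) (q + 2 ^ R n * u)
        have a4 := ind_abs_le (U n t₁ k v) (q + 2 ^ R n * u)
        rw [abs_of_nonneg a1] at a2
        rw [abs_of_nonneg a3] at a4
        rw [abs_le]; constructor <;> linarith
      · intro u u' huu
        have h1 : q + 2 ^ R n * u ∈ W n t₁ k v ↔ q + 2 ^ R n * u' ∈ W n t₁ k v := by
          have : ∀ i, i < k → eps n (t₁ + i + M n * (q + 2 ^ R n * u)) =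
              eps n (t₁ + i + M n * (q + 2 ^ R n * u')) := by
            intro i hi
            rw [eps_class n q _ u (by omega), eps_class n q _ u' (by omega)]
            have huu' : eps (n + 1) (q / 2 + M (n + 1) * u) =
              eps (n + 1) (q / 2 + M (n + 1) * u') := huu
            rw [huu']
          constructor
          · intro hw i hi; rw [← this i hi]; exact hw i hi
          · intro hw i hi; rw [this i hi]; exact hw i hi
        have h2 : q + 2 ^ R n * u ∈ U n t₁ k v ↔ q + 2 ^ R n * u' ∈ U n t₁ k v := by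
          have : ∀ t, E n (q + 2 ^ R n * u) t = E n (q + 2 ^ R n * u') t := by
            intro t; apply E_congr; rw [Nat.add_mul_mod_self_left, Nat.add_mul_mod_self_left]
          constructor
          · intro hw i hi; rw [← this]; exact hw i hi
          · intro hw i hi; rw [this]; exact hw i hi
        show ind (W n t₁ k v) (q + 2 ^ R n * u) + (-1) * ind (U n t₁ k v) (q + 2 ^ R n * u) =
          ind (W n t₁ k v) (q + 2 ^ R n * u') + (-1) * ind (U n t₁ k v) (q + 2 ^ R n * u')
        rw [ind_congr' h1, ind_congr' h2]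
      · intro b
        apply bal_level1
        rw [pow_R'] at hqlt
        omega
  have hsum := hd.add hU
  refine (hsum.mono ?_).congr ?_
  · have := card_Yset n t₁ k v h
    have : ((Yset n t₁ k v).card : ℝ) ≤ 52 := by exact_mod_cast this
    linarith
  · intro p; ring

end Pool.Agent.H96fb
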