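import Pool.Agent.H96fb.Rows

/-! The word and its recognisability. -/

namespace Pool.Agent.H96fb
open Finset

/-- block lengths -/
def ell : ℕ → ℕ
  | 0 => 1
  | n + 1 => 2 * M n * ell n

theorem ell_pos (n : ℕ) : 0 < ell n := by
  induction n with
  | zero => norm_num [ell]
  | succ n ih => have := M_pos n; unfold ell; positivity

theorem ell_succ (n : ℕ) : ell (n + 1) = ell n * (2 * M n) := by rw [ell]; ring

theorem ell_mono (n : ℕ) : 2 * ell n ≤ ell (n + 1) := by
  rw [ell_succ, mul_comm 2]
  have := M_pos n
  exact Nat.mul_le_mul_left _ (by omega)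

/-- the word -/
def x (p : ℕ) : Fin (M 0) × Bool := (⟨p % M 0, Nat.mod_lt _ (M_pos 0)⟩, eps 0 p)

theorem tst_cong (n J J' : ℕ) (h : J % M (n + 1) = J' % M (n + 1)) : tst n J = tst n J' := by
  rw [← Nat.mod_add_div J (M (n + 1)), ← Nat.mod_add_div J' (M (n + 1)), tst_add, tst_add, h]

theorem dbl_cong (n s J J' : ℕ) (h : J % M (n + 1) = J' % M (n + 1)) :
    (s + 2 * J) % 2 ^ R n = (s + 2 * J') % 2 ^ R n := by
  rw [pow_R']
  exact Nat.ModEq.add_left s (Nat.ModEq.mul_left' 2 h)

theorem eps_cong (n c J J' : ℕ) (hc : c < 2 * M n) (h : J % M (n + 1) = J' % M (n + 1))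
    (he : eps (n + 1) J = eps (n + 1) J') :
    eps n (c + 2 * M n * J) = eps n (c + 2 * M n * J') := by
  have e1 : ∀ z, c + 2 * M n * z = c % M n + M n * (c / M n + 2 * z) := by
    intro z
    conv_lhs => rw [← Nat.mod_add_div c (M n)]
    ring
  have hs : c / M n < 2 := by rw [Nat.div_lt_iff_lt_mul (M_pos n)]; exact hc
  have e2 : ∀ z, ∀ s, s < 2 → (s + 2 * z) / 2 = z := by intro z s hs; omega
  rw [e1, e1, eps_eq n _ _ (Nat.mod_lt _ (M_pos n)), eps_eq n _ _ (Nat.mod_lt _ (M_pos n)),
    e2 _ _ hs, e2 _ _ hs, tst_cong n J J' h, he]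
  congr 1
  exact E_congr n _ _ _ (dbl_cong n _ J J' h)

theorem block_same (n : ℕ) : ∀ r j j', r < ell n → j % M n = j' % M n → eps n j = eps n j' →
    x (r + ell n * j) = x (r + ell n * j') := by
  induction n with
  | zero =>
    intro r j j' hr hj he
    have hr0 : r = 0 := by unfold ell at hr; omega
    have e1 : ell 0 = 1 := rfl
    rw [hr0, e1, zero_add, zero_add, one_mul, one_mul]
    unfold x
    simp only [hj, he]
  | succ n ih =>
    intro r J J' hr hJ he
    have e1 : ∀ z, r + ell (n + 1) * z = r % ell n + ell n * (r / ell n + 2 * M n * z) := by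
      intro z
      conv_lhs => rw [← Nat.mod_add_div r (ell n), ell_succ]
      ring
    have hc : r / ell n < 2 * M n := by
      rw [Nat.div_lt_iff_lt_mul (ell_pos n), mul_comm, ← ell_succ]; exact hr
    rw [e1, e1]
    apply ih _ _ _ (Nat.mod_lt _ (ell_pos n))
    · rw [mul_comm 2 (M n), mul_assoc, mul_assoc, Nat.add_mul_mod_self_left,
        Nat.add_mul_mod_self_left]
    · exact eps_cong n _ J J' hc hJ he

theorem block_diff (n : ℕ) : ∀ j j', j % M n = j' % M n →
    (∀ r, r < ell n → x (r + ell n * j) = x (r + ell n * j')) → eps n j = eps n j' := by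
  induction n with
  | zero =>
    intro j j' _ h
    have := h 0 (by norm_num [ell])
    have e1 : ell 0 = 1 := rfl
    rw [e1, zero_add, zero_add, one_mul, one_mul] at this
    exact congrArg Prod.snd this
  | succ n ih =>
    intro J J' hJ h
    have hQ := Q_pos n
    have hT := tst_cong n J J' hJ
    have hTlt : tst n J < M n := by have := tst_lt n J; rw [M_eq]; omega
    have h1 : eps n (tst n J + M n * (2 * J)) = eps n (tst n J + M n * (2 * J')) := by
      apply ih
      · rw [Nat.add_mul_mod_self_left, Nat.add_mul_mod_self_left]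
      · intro r hr
        have h2 := h (r + ell n * tst n J) (by
          rw [ell_succ]
          have : ell n * tst n J + ell n ≤ ell n * (2 * M n) := by
            rw [← Nat.mul_succ]; exact Nat.mul_le_mul_left _ (by omega)
          omega)
        have e1 : ∀ z, r + ell n * (tst n J + M n * (2 * z)) =
            r + ell n * tst n J + ell (n + 1) * z := by
          intro z; rw [ell_succ]; ring
        rw [e1, e1]
        exact h2
    rw [eps_eq n _ _ hTlt, eps_eq n _ _ hTlt] at h1
    have e2 : ∀ z : ℕ, 2 * z / 2 = z := by intro z; omega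
    rw [e2, e2, if_pos rfl, if_pos hT] at h1
    have hE : E n (2 * J) (tst n J) = E n (2 * J') (tst n J) := by
      apply E_congr
      have := dbl_cong n 0 J J' hJ
      rwa [zero_add, zero_add] at this
    rw [hE] at h1
    exact Bool.xor_right_inj.1 h1

theorem recog (n : ℕ) : ∀ p p', (∀ i, i < ell n → x (p + i) = x (p' + i)) →
    p % (ell n * M n) = p' % (ell n * M n) := by
  induction n with
  | zero =>
    intro p p' h
    have := h 0 (by norm_num [ell])
    rw [add_zero, add_zero] at this
    have h2 := congrArg (fun z => (Prod.fst z).val) this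
    have e1 : ell 0 = 1 := rfl
    rw [e1, one_mul]
    exact h2
  | succ n ih =>
    intro p p' h
    have hM := M_pos n
    have hl := ell_pos n
    have hQ := Q_pos n
    have hR := R_le n
    have hMQ := M_eq n
    have h0 := ih p p' (fun i hi => h i (by have := ell_mono n; omega))
    have hmodl : p % ell n = p' % ell n := by
      have := congrArg (fun z => z % ell n) h0
      simp only [Nat.mod_mul_right_mod] at this
      exact this
    have hmodj : p / ell n % M n = p' / ell n % M n := by
      have := congrArg (fun z => z / ell n) h0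
      simp only [Nat.mod_mul_right_div_self] at this
      exact this
    have hblk : ∀ c, 1 ≤ c → c ≤ 2 * M n - 1 →
        eps n (p / ell n + c) = eps n (p' / ell n + c) := by
      intro c hc1 hc2
      apply block_diff n
      · exact Nat.ModEq.add_right c hmodj
      · intro r hr
        have hc3 : ell n ≤ ell n * c := Nat.le_mul_of_pos_right _ (by omega)
        have hc4 : ell n * c + ell n ≤ ell (n + 1) := by
          rw [ell_succ, ← Nat.mul_succ]; exact Nat.mul_le_mul_left _ (by omega)
        have hpl := Nat.mod_lt p hl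
        have h2 := h (r + ell n * c - p % ell n) (by omega)
        have e1 : ∀ z, r + ell n * (z / ell n + c) = z + (r + ell n * c - z % ell n) := by
          intro z
          have a := Nat.mod_add_div z (ell n)
          have b := Nat.mod_lt z hl
          rw [mul_add]
          omega
        rw [e1, e1, ← hmodl]
        exact h2
    have hrow : ∀ z s, z / ell n + (M n - z / ell n % M n + s) =
        s + M n * (z / ell n / M n + 1) := by
      intro z s
      have a := Nat.mod_add_div (z / ell n) (M n)
      have b := Nat.mod_lt (z / ell n) hM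
      rw [mul_add, mul_one]
      omega
    have hy : (p / ell n / M n) % 2 ^ R n = (p' / ell n / M n) % 2 ^ R n := by
      rw [← mod_succ_cong]
      apply P_uncong (R n) (R n) _ _ (le_refl _)
      intro s hs
      have hlt := Nat.mod_lt (p / ell n) hM
      have h2 := hblk (M n - p / ell n % M n + s) (by omega) (by omega)
      rw [hrow p s] at h2
      rw [hmodj, hrow p' s, eps_start n _ s hs, eps_start n _ s hs] at h2
      exact h2
    have e3 : ell (n + 1) * M (n + 1) = (ell n * M n) * 2 ^ R n := by
      rw [ell_succ, pow_R']; ring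
    have e4 : ∀ z, z % (ell n * M n * 2 ^ R n) =
        z % (ell n * M n) + (ell n * M n) * (z / (ell n * M n) % 2 ^ R n) := fun z => Nat.mod_mul
    rw [e3, e4, e4, h0, ← Nat.div_div_eq_div_mul, ← Nat.div_div_eq_div_mul, hy]

end Pool.Agent.H96fb
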